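import Pool.Agent.Lib.MP_6bc78b_nt.MS.P3.Iface

/-! Bounds for the integrand of the contour integral in `s`. -/

set_option autoImplicit false

open Complex Filter Topology ArithmeticFunction MeasureTheory

namespace Pool.Agent.Lib.MP_6bc78b_nt.MS.P3.H2

/-- The integrand. -/
noncomputable def ff (j : ℕ) (th c1 c2 T : ℝ) (A : Fin 3 → ℂ) (W : ℂ) (s : ℂ) : ℂ :=
  Gm j T s * (∏ i, riemannZeta (s + sc T A i)) * iz s * iz (s + W / Real.log T) *
    NN th c1 c2 T s (sc T A) (W / Real.log T)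

theorem ff_eq (hZR : ZrStatement) (j : ℕ) (th c1 c2 T : ℝ) (A : Fin 3 → ℂ) (W : ℂ) {s : ℂ}
    (h1 : s ≠ 1) (h2 : s + W / Real.log T ≠ 1) :
    ff j th c1 c2 T A W s = Gm j T s * Hz s (sc T A) (W / Real.log T) *
      NN th c1 c2 T s (sc T A) (W / Real.log T) := by
  obtain ⟨_, _, _, h4, _⟩ := hZR
  unfold ff Hz
  rw [h4 _ h1, h4 _ h2, div_eq_mul_inv (∏ i, riemannZeta (s + sc T A i)), mul_inv]
  ring

/-- Consequences of ZB with exponent 1/20. -/
theorem zb_cons (hRH : RiemannHypothesis) (hZR : ZrStatement) (hZB : ZbStatement) :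
    ∃ C : ℝ, 1 ≤ C ∧
      (∀ (s : ℂ) (r : ℝ), 7 / 10 ≤ s.re → s.re ≤ 3 → 0 < r → r ≤ 1 → r ≤ ‖s - 1‖ →
        ‖riemannZeta s‖ ≤ C * (1 + |s.im|) ^ (1 / 20 : ℝ) / r) ∧
      (∀ s : ℂ, 7 / 10 ≤ s.re → s.re ≤ 3 → ‖iz s‖ ≤ C * (1 + |s.im|) ^ (1 / 20 : ℝ)) := by
  obtain ⟨_, hz1, _, h4, _⟩ := hZR
  obtain ⟨C, hC, h⟩ := hZB hRH (1 / 20) (by norm_num)
  refine ⟨max C 1, le_max_right _ _, ?_, ?_⟩
  · intro s r h1 h2 hr hr1 h3
    have hs1 : s ≠ 1 := by
      rintro rfl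
      simp at h3
      linarith
    have h5 := (h s h1 h2 hs1).1
    have hp : 0 < (1 + |s.im|) ^ (1 / 20 : ℝ) := by positivity
    have h6 : r ≤ min ‖s - 1‖ 1 := le_min h3 hr1
    rw [le_div_iff₀ hr]
    calc ‖riemannZeta s‖ * r ≤ ‖riemannZeta s‖ * min ‖s - 1‖ 1 := by gcongr
      _ ≤ C * (1 + |s.im|) ^ (1 / 20 : ℝ) := h5
      _ ≤ max C 1 * (1 + |s.im|) ^ (1 / 20 : ℝ) := by
        gcongr
        exact le_max_left _ _
  · intro s h1 h2
    have hp : 0 < (1 + |s.im|) ^ (1 / 20 : ℝ) := by positivity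
    by_cases hs1 : s = 1
    · subst hs1
      have : iz 1 = 0 := by unfold iz; simp
      rw [this, norm_zero]
      positivity
    · have h5 := (h s h1 h2 hs1).2
      rw [h4 s hs1, norm_inv]
      have h6 : 1 ≤ (C * (1 + |s.im|) ^ (1 / 20 : ℝ)) * ‖riemannZeta s‖ := by
        refine h5.trans ?_
        have h7 : min ‖s - 1‖ 1 ≤ 1 := min_le_right _ _
        have h8 : 0 ≤ ‖riemannZeta s‖ := norm_nonneg _
        have h9 : 0 ≤ min ‖s - 1‖ 1 := le_min (norm_nonneg _) zero_le_one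
        calc C * (1 + |s.im|) ^ (1 / 20 : ℝ) * min ‖s - 1‖ 1 * ‖riemannZeta s‖
            ≤ C * (1 + |s.im|) ^ (1 / 20 : ℝ) * 1 * ‖riemannZeta s‖ := by gcongr
          _ = _ := by ring
      have h7 : 0 < ‖riemannZeta s‖ := by
        by_contra h8
        have h9 : ‖riemannZeta s‖ = 0 := le_antisymm (not_lt.1 h8) (norm_nonneg _)
        rw [h9, mul_zero] at h6
        linarith
      calc ‖riemannZeta s‖⁻¹ ≤ C * (1 + |s.im|) ^ (1 / 20 : ℝ) := by
            rw [inv_le_iff_one_le_mul₀ h7]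
            exact h6
        _ ≤ max C 1 * (1 + |s.im|) ^ (1 / 20 : ℝ) := by
          gcongr
          exact le_max_left _ _

/-- Main bound. -/
theorem ff_bound (hRH : RiemannHypothesis) (hZR : ZrStatement) (hZB : ZbStatement)
    (hGM : GmStatement) (j : ℕ) :
    ∃ M T1 : ℝ, 0 < M ∧ ∀ T : ℝ, T1 ≤ T → ∀ (th c1 c2 : ℝ) (A : Fin 3 → ℂ) (W s : ℂ) (r B : ℝ),
      A ∈ pd → W.re = 2 → 3 / 4 ≤ s.re → s.re ≤ 2 → 0 < r → r ≤ 1 →
      (∀ i, r ≤ ‖s + sc T A i - 1‖) →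
      ‖NN th c1 c2 T s (sc T A) (W / Real.log T)‖ ≤ B →
        ‖ff j th c1 c2 T A W s‖ ≤
          M * (T ^ s.re * Real.log T ^ (j + 2)) * B * r⁻¹ ^ 3 * (1 + ‖W‖) ^ (1 / 20 : ℝ) /
            (1 + |s.im|) ^ (3 / 2 : ℝ) := by
  obtain ⟨C0, hC0, hz, hiz⟩ := zb_cons hRH hZR hZB
  obtain ⟨C1, T1, hC1, hG⟩ := hGM.2.2.1 j
  refine ⟨16 * C0 ^ 5 * C1, max T1 (Real.exp 10), by positivity, ?_⟩
  intro T hT th c1 c2 A W s r B hA hW hs1 hs2 hr hr1 hri hB
  have hT1 : T1 ≤ T := (le_max_left _ _).trans hT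
  have hT10 : Real.exp 10 ≤ T := (le_max_right _ _).trans hT
  have hT0 : 0 < T := (Real.exp_pos _).trans_le hT10
  have hL : 10 ≤ Real.log T := by
    rw [Real.le_log_iff_exp_le hT0]; exact hT10
  have hL0 : 0 < Real.log T := by linarith
  have hB0 : 0 ≤ B := (norm_nonneg _).trans hB
  -- the shifts are small
  have hsc : ∀ i, ‖sc T A i‖ ≤ 1 / 40 := by
    intro i
    unfold sc
    rw [norm_div, Complex.norm_real, Real.norm_eq_abs, abs_of_pos hL0, div_le_iff₀ hL0]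
    have := hA i
    linarith
  have hscre : ∀ i, |(sc T A i).re| ≤ 1 / 40 := fun i => (abs_re_le_norm _).trans (hsc i)
  have hscim : ∀ i, |(sc T A i).im| ≤ 1 / 40 := fun i => (abs_im_le_norm _).trans (hsc i)
  set τ : ℝ := 1 + |s.im| with hτ
  have hτ1 : 1 ≤ τ := by rw [hτ]; linarith [abs_nonneg s.im]
  have hτ0 : 0 < τ := by linarith
  set p : ℝ := τ ^ (1 / 20 : ℝ) with hp
  have hp0 : 0 < p := by positivity
  -- zeta factors
  have b1 : ∀ i, ‖riemannZeta (s + sc T A i)‖ ≤ 2 * C0 * p / r := by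
    intro i
    have h1 : 7 / 10 ≤ (s + sc T A i).re := by
      rw [add_re]; have := (abs_le.1 (hscre i)).1; linarith
    have h2 : (s + sc T A i).re ≤ 3 := by
      rw [add_re]; have := (abs_le.1 (hscre i)).2; linarith
    refine (hz _ r h1 h2 hr hr1 (hri i)).trans ?_
    have h3 : (1 + |(s + sc T A i).im|) ^ (1 / 20 : ℝ) ≤ 2 * p := by
      calc (1 + |(s + sc T A i).im|) ^ (1 / 20 : ℝ) ≤ (2 * τ) ^ (1 / 20 : ℝ) := by
            apply Real.rpow_le_rpow (by positivity) _ (by norm_num)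
            rw [add_im, hτ]
            have h5 := abs_add_le s.im (sc T A i).im
            have h6 := hscim i
            have h7 := abs_nonneg s.im
            linarith
        _ = 2 ^ (1 / 20 : ℝ) * p := by rw [Real.mul_rpow (by norm_num) hτ0.le]
        _ ≤ 2 * p := by
            gcongr
            calc (2 : ℝ) ^ (1 / 20 : ℝ) ≤ 2 ^ (1 : ℝ) :=
                  Real.rpow_le_rpow_of_exponent_le (by norm_num) (by norm_num)
              _ = 2 := Real.rpow_one 2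
    calc C0 * (1 + |(s + sc T A i).im|) ^ (1 / 20 : ℝ) / r ≤ C0 * (2 * p) / r := by gcongr
      _ = 2 * C0 * p / r := by ring
  have b2 : ‖∏ i, riemannZeta (s + sc T A i)‖ ≤ (2 * C0 * p / r) ^ 3 := by
    rw [norm_prod]
    calc ∏ i, ‖riemannZeta (s + sc T A i)‖ ≤ ∏ _i : Fin 3, (2 * C0 * p / r) :=
          Finset.prod_le_prod (fun i _ => norm_nonneg _) fun i _ => b1 i
      _ = (2 * C0 * p / r) ^ 3 := by
          rw [Finset.prod_const, Finset.card_univ, Fintype.card_fin]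
  have b3 : ‖iz s‖ ≤ C0 * p := hiz s (by linarith) (by linarith)
  have hWL : ‖W / Real.log T‖ ≤ ‖W‖ := by
    rw [norm_div, Complex.norm_real, Real.norm_eq_abs, abs_of_pos hL0]
    apply div_le_self (norm_nonneg _)
    linarith
  have b4 : ‖iz (s + W / Real.log T)‖ ≤ C0 * (p * (1 + ‖W‖) ^ (1 / 20 : ℝ)) := by
    have hre : (W / Real.log T).re = 2 / Real.log T := by
      rw [div_ofReal_re, hW]
    have h5 : 2 / Real.log T ≤ 1 / 5 := by
      rw [div_le_div_iff₀ hL0 (by norm_num)]; linarith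
    have h6 : 0 < 2 / Real.log T := by positivity
    have h1 : 7 / 10 ≤ (s + W / Real.log T).re := by rw [add_re, hre]; linarith
    have h2 : (s + W / Real.log T).re ≤ 3 := by rw [add_re, hre]; linarith
    refine (hiz _ h1 h2).trans ?_
    have h3 : (1 + |(s + W / Real.log T).im|) ^ (1 / 20 : ℝ) ≤ p * (1 + ‖W‖) ^ (1 / 20 : ℝ) := by
      rw [hp, ← Real.mul_rpow hτ0.le (by positivity)]
      apply Real.rpow_le_rpow (by positivity) _ (by norm_num)
      have h7 := abs_add_le s.im (W / Real.log T).im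
      have h8 := (abs_im_le_norm (W / Real.log T)).trans hWL
      rw [add_im, hτ]
      have h9 := norm_nonneg W
      have h10 := abs_nonneg s.im
      nlinarith
    gcongr
  have b5 : ‖Gm j T s‖ ≤ C1 * (T ^ s.re * Real.log T ^ (j + 2)) * (2 / τ ^ 2) := by
    refine (hG T hT1 s (by linarith) (by linarith)).trans ?_
    have h1 : 1 / (1 + s.im ^ 2) ≤ 2 / τ ^ 2 := by
      rw [div_le_div_iff₀ (by positivity) (by positivity), hτ]
      have := sq_nonneg (|s.im| - 1)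
      have h2 := sq_abs s.im
      nlinarith
    have h3 : 0 ≤ C1 * (T ^ s.re * Real.log T ^ (j + 2)) := by positivity
    calc C1 * T ^ s.re * Real.log T ^ (j + 2) / (1 + s.im ^ 2)
        = C1 * (T ^ s.re * Real.log T ^ (j + 2)) * (1 / (1 + s.im ^ 2)) := by ring
      _ ≤ C1 * (T ^ s.re * Real.log T ^ (j + 2)) * (2 / τ ^ 2) := by gcongr
  -- product
  have hpow : p ^ 5 = τ ^ (1 / 4 : ℝ) := by
    rw [hp, ← Real.rpow_natCast, ← Real.rpow_mul hτ0.le]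
    norm_num
  have h32 : p ^ 5 * (1 / τ ^ 2) ≤ 1 / τ ^ (3 / 2 : ℝ) := by
    rw [hpow]
    have h1 : τ ^ (2 : ℕ) = τ ^ (1 / 4 : ℝ) * τ ^ (7 / 4 : ℝ) := by
      rw [← Real.rpow_add hτ0, ← Real.rpow_natCast]
      norm_num
    have h2 : τ ^ (3 / 2 : ℝ) ≤ τ ^ (7 / 4 : ℝ) :=
      Real.rpow_le_rpow_of_exponent_le hτ1 (by norm_num)
    have h3 : 0 < τ ^ (1 / 4 : ℝ) := by positivity
    have h4 : 0 < τ ^ (3 / 2 : ℝ) := by positivity
    have h5 : 0 < τ ^ (7 / 4 : ℝ) := by positivity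
    rw [h1, mul_one_div, ← div_div, div_self h3.ne']
    exact one_div_le_one_div_of_le h4 h2
  unfold ff
  rw [norm_mul, norm_mul, norm_mul, norm_mul]
  have hG0 : 0 ≤ C1 * (T ^ s.re * Real.log T ^ (j + 2)) * (2 / τ ^ 2) := by positivity
  calc ‖Gm j T s‖ * ‖∏ i, riemannZeta (s + sc T A i)‖ * ‖iz s‖ * ‖iz (s + W / Real.log T)‖ *
        ‖NN th c1 c2 T s (sc T A) (W / Real.log T)‖
      ≤ (C1 * (T ^ s.re * Real.log T ^ (j + 2)) * (2 / τ ^ 2)) * (2 * C0 * p / r) ^ 3 *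
        (C0 * p) * (C0 * (p * (1 + ‖W‖) ^ (1 / 20 : ℝ))) * B := by gcongr
    _ = (16 * C0 ^ 5 * C1 * (T ^ s.re * Real.log T ^ (j + 2)) * B * r⁻¹ ^ 3 *
        (1 + ‖W‖) ^ (1 / 20 : ℝ)) * (p ^ 5 * (1 / τ ^ 2)) := by
        field_simp
        ring
    _ ≤ (16 * C0 ^ 5 * C1 * (T ^ s.re * Real.log T ^ (j + 2)) * B * r⁻¹ ^ 3 *
        (1 + ‖W‖) ^ (1 / 20 : ℝ)) * (1 / τ ^ (3 / 2 : ℝ)) := by
        gcongr
    _ = _ := by ring

end Pool.Agent.Lib.MP_6bc78b_nt.MS.P3.H2
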