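import Pool.Agent.Lib.MP_6bc78b_nt.MS.P3.H2.Avg
import Pool.Agent.Lib.MP_6bc78b_nt.MS.P3.H2.Loc

/-! (R3): shift of the contour in `s`, averaged over the circles. -/

set_option autoImplicit false

open Complex Filter Topology ArithmeticFunction MeasureTheory

namespace Pool.Agent.Lib.MP_6bc78b_nt.MS.P3.H2

theorem log_pow_le (j : ℕ) : ∃ T5 : ℝ, ∀ T : ℝ, T5 ≤ T →
    Real.log T ^ j ≤ T ^ (1 / 100 : ℝ) := by
  have h := isLittleO_log_rpow_rpow_atTop (s := 1 / 100) (j : ℝ) (by norm_num)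
  have h1 := h.bound (c := 1) one_pos
  obtain ⟨T5, hT5⟩ := eventually_atTop.1 (h1.and (eventually_ge_atTop 1))
  refine ⟨T5, fun T hT => ?_⟩
  obtain ⟨h2, h3⟩ := hT5 T hT
  rw [Real.rpow_natCast, one_mul, Real.norm_eq_abs, Real.norm_eq_abs] at h2
  have h4 : 0 ≤ Real.log T := Real.log_nonneg h3
  rw [abs_of_nonneg (pow_nonneg h4 j), abs_of_nonneg (by positivity)] at h2
  exact h2

theorem ff_diff (hRH : RiemannHypothesis) (hZR : ZrStatement) (hGM : GmStatement) (j : ℕ)
    {th c1 c2 T : ℝ} (hT : 3 ≤ T) (hL : 10 ≤ Real.log T) {A : Fin 3 → ℂ} {W s : ℂ}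
    (hW : W.re = 2) (hs : 3 / 4 ≤ s.re) (hne : ∀ i, s + sc T A i ≠ 1)
    (hNN : DifferentiableAt ℂ (fun s => NN th c1 c2 T s (sc T A) (W / Real.log T)) s) :
    DifferentiableAt ℂ (ff j th c1 c2 T A W) s := by
  obtain ⟨hz1, _, _, _, hz5, _⟩ := hZR
  have hL0 : 0 < Real.log T := by linarith
  have d1 : DifferentiableAt ℂ (Gm j T) s := hGM.2.1 j T s hT (by linarith)
  have d2 : DifferentiableAt ℂ (fun s => ∏ i, riemannZeta (s + sc T A i)) s := by
    have h1 : ∀ i ∈ (Finset.univ : Finset (Fin 3)),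
        DifferentiableAt ℂ (fun s => riemannZeta (s + sc T A i)) s := by
      intro i _
      exact (differentiableAt_riemannZeta (hne i)).comp s (differentiableAt_id.add_const _)
    exact DifferentiableAt.fun_finsetProd h1
  have diz : ∀ z : ℂ, 1 / 2 < z.re → DifferentiableAt ℂ iz z := by
    intro z hz
    unfold iz
    exact ((differentiableAt_id).sub_const 1).div (hz1 z) (hz5 hRH z hz)
  have d3 : DifferentiableAt ℂ iz s := diz s (by linarith)
  have d4 : DifferentiableAt ℂ (fun s => iz (s + W / Real.log T)) s := by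
    have hre : (W / Real.log T).re = 2 / Real.log T := by
      rw [div_ofReal_re, hW]
    have h6 : 0 < 2 / Real.log T := by positivity
    have := diz (s + W / Real.log T) (by rw [add_re, hre]; linarith)
    exact this.comp s (differentiableAt_id.add_const _)
  exact (((d1.mul d2).mul d3).mul d4).mul hNN

theorem r3 (hRH : RiemannHypothesis) (hZR : ZrStatement) (hZB : ZbStatement) (hGM : GmStatement)
    (hNB : NbStatement) (hR2 : R2Statement) (hSQ : SqStatement) (hSW : SwStatement)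
    (hKC : KcStatement) : R3Statement := by
  intro th c1 c2 hth hth2 j
  obtain ⟨M, T1, hM, hM1⟩ := ff_bound hRH hZR hZB hGM j
  obtain ⟨CN, T2, hCN, hN⟩ := hNB th c1 c2 hth hth2
  obtain ⟨T3, hR⟩ := hR2 th c1 c2 hth hth2
  obtain ⟨T4, hK⟩ := hKC th c1 c2 hth hth2 j
  obtain ⟨T5, hT5⟩ := log_pow_le (j + 2)
  have hJi : Integrable (fun t : ℝ => 1 / (1 + |t|) ^ (3 / 2 : ℝ)) := by
    have h := integrable_one_add_norm (E := ℝ) (μ := volume) (r := 3 / 2) (by simp; norm_num)
    refine h.congr (Eventually.of_forall fun t => ?_)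
    simp only [Real.norm_eq_abs]
    rw [Real.rpow_neg (by positivity), one_div]
  set J : ℝ := ∫ t : ℝ, 1 / (1 + |t|) ^ (3 / 2 : ℝ) with hJ
  have hJ0 : 0 ≤ J := integral_nonneg fun t => by positivity
  refine ⟨64 * (M * CN * 8 ^ 3 * 2 * J), max (max T1 T2) (max (max T3 T4) (max T5 (Real.exp 10))), ?_⟩
  intro T hT e he W hW
  have hTT1 : T1 ≤ T := (le_max_left _ _).trans ((le_max_left _ _).trans hT)
  have hTT2 : T2 ≤ T := (le_max_right _ _).trans ((le_max_left _ _).trans hT)
  have hTr := (le_max_right _ _).trans hT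
  have hTT3 : T3 ≤ T := (le_max_left _ _).trans ((le_max_left _ _).trans hTr)
  have hTT4 : T4 ≤ T := (le_max_right _ _).trans ((le_max_left _ _).trans hTr)
  have hTT5 : T5 ≤ T := (le_max_left _ _).trans ((le_max_right _ _).trans hTr)
  have hT10 : Real.exp 10 ≤ T := (le_max_right _ _).trans ((le_max_right _ _).trans hTr)
  have hT0 : 0 < T := (Real.exp_pos _).trans_le hT10
  have hL : 10 ≤ Real.log T := by
    rw [Real.le_log_iff_exp_le hT0]; exact hT10
  have hL0 : 0 < Real.log T := by linarith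
  have hLC : (Real.log T : ℂ) ≠ 0 := by exact_mod_cast hL0.ne'
  have hT1' : 1 ≤ T := by
    have : (1 : ℝ) ≤ Real.exp 10 := Real.one_le_exp (by norm_num)
    linarith
  have hT3' : 3 ≤ T := by
    have : (10 : ℝ) + 1 ≤ Real.exp 10 := Real.add_one_le_exp 10
    linarith
  have hcG : (cG T : ℂ) ≠ 0 := by
    have h1 : 0 < cG T := by
      unfold cG DD
      positivity
    exact_mod_cast h1.ne'
  have hWn : 2 ≤ ‖W‖ := by
    rw [← hW]; exact re_le_norm W
  have hWre : (W / Real.log T).re = 2 / Real.log T := by rw [div_ofReal_re, hW]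
  have h2L : 0 < 2 / Real.log T := by positivity
  -- the error
  set E : (Fin 3 → ℂ) → ℂ := fun A => ((2 * Real.pi : ℝ) : ℂ)⁻¹ *
    ∫ t : ℝ, ff j th c1 c2 T A W (3 / 4 + t * I) with hE
  have hscn : ∀ A ∈ pd, ∀ i, ‖sc T A i‖ ≤ 1 / (4 * Real.log T) := by
    intro A hA i
    unfold sc
    rw [norm_div, Complex.norm_real, Real.norm_eq_abs, abs_of_pos hL0]
    rw [div_le_div_iff₀ hL0 (by positivity)]
    have := hA i
    nlinarith
  have hmain : ∀ A ∈ pd, Integrable (fun t : ℝ => ff j th c1 c2 T A W (3 / 4 + t * I)) ∧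
      RR th c1 c2 T j (sc T A) (W / Real.log T) = E A +
        (cG T * Real.log T ^ j) * ((2 * Real.pi * I)⁻¹ * sqI fun Z => KK th c1 c2 T j Z A W) := by
    intro A hA
    obtain ⟨hN1, _, hN3⟩ := hN T hTT2 A hA W hW
    have hcond : ∀ s : ℂ, 3 / 4 ≤ s.re → s.re ≤ 2 →
        (1 / (2 * Real.log T) ≤ |s.re - 1| ∨ 1 / (2 * Real.log T) ≤ |s.im|) →
        DifferentiableAt ℂ (ff j th c1 c2 T A W) s ∧ ‖ff j th c1 c2 T A W s‖ ≤
          (M * (T ^ (2 : ℝ) * Real.log T ^ (j + 2)) * (CN * T) * (1 / (4 * Real.log T))⁻¹ ^ 3 *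
            (1 + ‖W‖) ^ (1 / 20 : ℝ)) / (1 + |s.im|) ^ (3 / 2 : ℝ) := by
      intro s hs1 hs2 hs3
      have hs4 : 1 / (2 * Real.log T) ≤ ‖s - 1‖ := by
        rcases hs3 with h | h
        · have := abs_re_le_norm (s - 1)
          rw [sub_re, one_re] at this
          exact h.trans this
        · have := abs_im_le_norm (s - 1)
          rw [sub_im, one_im, sub_zero] at this
          exact h.trans this
      have hr : ∀ i, 1 / (4 * Real.log T) ≤ ‖s + sc T A i - 1‖ := by
        intro i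
        have h1 := hscn A hA i
        have h2 : ‖s - 1‖ ≤ ‖s + sc T A i - 1‖ + ‖sc T A i‖ := by
          calc ‖s - 1‖ = ‖(s + sc T A i - 1) - sc T A i‖ := by congr 1; ring
            _ ≤ _ := norm_sub_le _ _
        have h3 : 1 / (2 * Real.log T) = 1 / (4 * Real.log T) + 1 / (4 * Real.log T) := by
          field_simp
          norm_num
        linarith
      have hr0 : 0 < 1 / (4 * Real.log T) := by positivity
      have hr1 : 1 / (4 * Real.log T) ≤ 1 := by
        rw [div_le_one (by positivity)]; linarith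
      constructor
      · apply ff_diff hRH hZR hGM j hT3' hL hW hs1 _ (hN1 s (by linarith))
        intro i h
        have := hr i
        rw [h, sub_self, norm_zero] at this
        linarith
      · refine (hM1 T hTT1 th c1 c2 A W s (1 / (4 * Real.log T)) (CN * T) hA hW hs1 hs2 hr0 hr1 hr
          (hN3 s hs1 hs2)).trans ?_
        have h4 : T ^ s.re ≤ T ^ (2 : ℝ) := Real.rpow_le_rpow_of_exponent_le hT1' hs2
        gcongr
    have hsq := hSQ (ff j th c1 c2 T A W) (Real.log T)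
      (M * (T ^ (2 : ℝ) * Real.log T ^ (j + 2)) * (CN * T) * (1 / (4 * Real.log T))⁻¹ ^ 3 *
        (1 + ‖W‖) ^ (1 / 20 : ℝ)) (by linarith) hcond
    · obtain ⟨_, i2, i3⟩ := hsq
      refine ⟨i2, ?_⟩
      have e1 : RR th c1 c2 T j (sc T A) (W / Real.log T) = ((2 * Real.pi : ℝ) : ℂ)⁻¹ *
          ∫ t : ℝ, ff j th c1 c2 T A W (2 + t * I) := by
        rw [(hR T hTT3 j W hW).2 A hA]
        congr 1
        apply integral_congr_ae
        refine Eventually.of_forall fun t => ?_
        simp only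
        rw [ff_eq hZR]
        · intro h
          have := congrArg Complex.re h
          simp at this
        · intro h
          have := congrArg Complex.re h
          rw [add_re, hWre] at this
          simp at this
          linarith
      have e2 : (sqI fun Z => ff j th c1 c2 T A W (1 + Z / Real.log T)) =
          (Real.log T * (cG T * Real.log T ^ j)) * sqI fun Z => KK th c1 c2 T j Z A W := by
        rw [← sqI_const_mul]
        apply sqI_congr
        intro Z hZ
        have hZ0 : Z ≠ 0 := by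
          rintro rfl
          rcases hZ.2.2 with h | h <;> simp at h
        have hZre : -(1 / 2) ≤ Z.re := (abs_le.1 hZ.1).1
        rw [ff_eq hZR]
        · unfold KK
          field_simp
        · intro h
          have h1 : Z / Real.log T = 0 := by linear_combination h
          rcases div_eq_zero_iff.1 h1 with h2 | h2
          · exact hZ0 h2
          · exact hLC h2
        · intro h
          have := congrArg Complex.re h
          rw [add_re, hWre, add_re, div_ofReal_re, one_re] at this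
          have h3 : Z.re / Real.log T + 2 / Real.log T = 0 := by linarith
          rw [← add_div, div_eq_zero_iff] at h3
          rcases h3 with h3 | h3 <;> linarith
      rw [e1, i3, e2]
      simp only [hE]
      congr 1
      generalize (2 * (Real.pi : ℂ) * I)⁻¹ = κ
      generalize (sqI fun Z => KK th c1 c2 T j Z A W) = Y
      field_simp
  -- bound of the error
  have hEb : ∀ A ∈ pd, ‖E A‖ ≤ M * CN * 8 ^ 3 * 2 * J * T ^ (9 / 10 : ℝ) * ‖W‖ ^ (1 / 4 : ℝ) := by
    intro A hA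
    obtain ⟨hN1, hN2, _⟩ := hN T hTT2 A hA W hW
    have hb : ∀ t : ℝ, ‖ff j th c1 c2 T A W (3 / 4 + t * I)‖ ≤
        (M * (T ^ (3 / 4 : ℝ) * Real.log T ^ (j + 2)) * (CN * T ^ (1 / 50 : ℝ)) * (1 / 8 : ℝ)⁻¹ ^ 3 *
          (1 + ‖W‖) ^ (1 / 20 : ℝ)) * (1 / (1 + |t|) ^ (3 / 2 : ℝ)) := by
      intro t
      have hre : ((3 / 4 : ℂ) + t * I).re = 3 / 4 := by norm_num
      have him : ((3 / 4 : ℂ) + t * I).im = t := by norm_num
      have h1 := hM1 T hTT1 th c1 c2 A W (3 / 4 + t * I) (1 / 8) (CN * T ^ (1 / 50 : ℝ)) hA hW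
        (by rw [hre]) (by rw [hre]; norm_num) (by norm_num) (by norm_num) ?_ (hN2 _ hre)
      · rw [hre, him] at h1
        calc _ ≤ _ := h1
          _ = _ := by ring
      · intro i
        have h2 := (abs_re_le_norm (sc T A i)).trans (hscn A hA i)
        have h3 : 1 / (4 * Real.log T) ≤ 1 / 40 := by
          apply one_div_le_one_div_of_le (by norm_num); linarith
        have h4 := abs_re_le_norm (3 / 4 + t * I + sc T A i - 1)
        rw [sub_re, add_re, hre, one_re] at h4
        have h5 := (abs_le.1 (h2.trans h3))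
        have h6 : (1 / 8 : ℝ) ≤ |3 / 4 + (sc T A i).re - 1| := by
          rw [abs_of_neg (by linarith)]
          linarith
        exact h6.trans h4
    set K34 : ℝ := M * (T ^ (3 / 4 : ℝ) * Real.log T ^ (j + 2)) * (CN * T ^ (1 / 50 : ℝ)) *
      (1 / 8 : ℝ)⁻¹ ^ 3 * (1 + ‖W‖) ^ (1 / 20 : ℝ) with hK34
    have h1 : ‖∫ t : ℝ, ff j th c1 c2 T A W (3 / 4 + t * I)‖ ≤ K34 * J := by
      rw [hJ, ← integral_const_mul]
      exact norm_integral_le_of_norm_le (hJi.const_mul K34) (Eventually.of_forall hb)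
    have h2 : ‖E A‖ ≤ K34 * J := by
      simp only [hE]
      rw [norm_mul, norm_inv, Complex.norm_real, Real.norm_eq_abs,
        abs_of_pos (by positivity : (0 : ℝ) < 2 * Real.pi)]
      have h3 : (2 * Real.pi)⁻¹ ≤ 1 := by
        apply inv_le_one_of_one_le₀
        have := Real.pi_gt_three
        linarith
      calc (2 * Real.pi)⁻¹ * ‖∫ t : ℝ, ff j th c1 c2 T A W (3 / 4 + t * I)‖
          ≤ 1 * ‖∫ t : ℝ, ff j th c1 c2 T A W (3 / 4 + t * I)‖ := by gcongr
        _ ≤ K34 * J := by rw [one_mul]; exact h1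
    refine h2.trans ?_
    have h4 : T ^ (3 / 4 : ℝ) * Real.log T ^ (j + 2) * T ^ (1 / 50 : ℝ) ≤ T ^ (9 / 10 : ℝ) := by
      calc T ^ (3 / 4 : ℝ) * Real.log T ^ (j + 2) * T ^ (1 / 50 : ℝ)
          ≤ T ^ (3 / 4 : ℝ) * T ^ (1 / 100 : ℝ) * T ^ (1 / 50 : ℝ) := by
            gcongr
            exact hT5 T hTT5
        _ = T ^ (3 / 4 + 1 / 100 + 1 / 50 : ℝ) := by
            rw [Real.rpow_add hT0, Real.rpow_add hT0]
        _ ≤ T ^ (9 / 10 : ℝ) := Real.rpow_le_rpow_of_exponent_le hT1' (by norm_num)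
    have h5 : (1 + ‖W‖) ^ (1 / 20 : ℝ) ≤ 2 * ‖W‖ ^ (1 / 4 : ℝ) := by
      calc (1 + ‖W‖) ^ (1 / 20 : ℝ) ≤ (2 * ‖W‖) ^ (1 / 20 : ℝ) := by
            apply Real.rpow_le_rpow (by positivity) (by linarith) (by norm_num)
        _ = 2 ^ (1 / 20 : ℝ) * ‖W‖ ^ (1 / 20 : ℝ) := Real.mul_rpow (by norm_num) (by positivity)
        _ ≤ 2 ^ (1 : ℝ) * ‖W‖ ^ (1 / 4 : ℝ) := by
            gcongr
            · norm_num
            · norm_num
            · linarith
            · norm_num
        _ = _ := by rw [Real.rpow_one]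
    calc K34 * J = (M * CN * 8 ^ 3 * J) * (T ^ (3 / 4 : ℝ) * Real.log T ^ (j + 2) *
          T ^ (1 / 50 : ℝ)) * (1 + ‖W‖) ^ (1 / 20 : ℝ) := by rw [hK34]; norm_num; ring
      _ ≤ (M * CN * 8 ^ 3 * J) * T ^ (9 / 10 : ℝ) * (2 * ‖W‖ ^ (1 / 4 : ℝ)) := by gcongr
      _ = _ := by ring
  -- average
  have hKfix : ContinuousOn (fun p : ℂ × (Fin 3 → ℂ) => KK th c1 c2 T j p.1 p.2 W) (sqB ×ˢ pd) := by
    have h1 : ContinuousOn (fun p : ℂ × (Fin 3 → ℂ) => ((p.1, p.2, W) : ℂ × (Fin 3 → ℂ) × ℂ))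
        (sqB ×ˢ pd) := by fun_prop
    have h := (hK T hTT4).comp h1 fun p hp => ⟨hp.1, hp.2, hW⟩
    simpa only [Function.comp_def] using h
  have hsw := hSW (fun Z A => KK th c1 c2 T j Z A W) hKfix e
  have hc1 : Continuous fun p : ℝ × ℝ × ℝ => wA e (tp p.1 p.2.1 p.2.2) *
      RR th c1 c2 T j (sc T (tp p.1 p.2.1 p.2.2)) (W / Real.log T) := by
    refine (wA_cont e).mul ?_
    have h := ((hR T hTT3 j W hW).1).comp_continuous tp_cont fun p => tp_mem _ _ _
    simpa only [Function.comp_def] using h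
  have hc2 : Continuous fun p : ℝ × ℝ × ℝ => wA e (tp p.1 p.2.1 p.2.2) *
      sqI fun Z => KK th c1 c2 T j Z (tp p.1 p.2.1 p.2.2) W := by
    refine (wA_cont e).mul ?_
    refine sqI_cont (g := fun Z (p : ℝ × ℝ × ℝ) => KK th c1 c2 T j Z (tp p.1 p.2.1 p.2.2) W) ?_
    have h1 : ContinuousOn (fun q : ℂ × (ℝ × ℝ × ℝ) =>
        ((q.1, tp q.2.1 q.2.2.1 q.2.2.2) : ℂ × (Fin 3 → ℂ))) (sqB ×ˢ Set.univ) := by
      apply Continuous.continuousOn
      exact continuous_fst.prodMk (tp_cont.comp continuous_snd)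
    have h := hKfix.comp h1 fun q hq => ⟨hq.1, tp_mem _ _ _⟩
    simpa only [Function.comp_def] using h
  have hlin := av3_lin (f := fun A => wA e A * RR th c1 c2 T j (sc T A) (W / Real.log T))
    (g := fun A => wA e A * sqI fun Z => KK th c1 c2 T j Z A W)
    (k := (cG T * Real.log T ^ j) * (2 * Real.pi * I)⁻¹) hc1 hc2
  rw [hsw] at hlin
  have hlin2 : (av3 fun A => wA e A * RR th c1 c2 T j (sc T A) (W / Real.log T)) -
      (cG T * Real.log T ^ j) * ((2 * Real.pi * I)⁻¹ *
        sqI fun Z => av3 fun A => wA e A * KK th c1 c2 T j Z A W) =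
      av3 (fun A => wA e A * RR th c1 c2 T j (sc T A) (W / Real.log T) -
        (cG T * Real.log T ^ j) * (2 * Real.pi * I)⁻¹ *
          (wA e A * sqI fun Z => KK th c1 c2 T j Z A W)) := by
    rw [hlin]
    ring
  rw [hlin2]
  have hfin : ∀ x y z : ℝ, ‖wA e (tp x y z) * RR th c1 c2 T j (sc T (tp x y z)) (W / Real.log T) -
        (cG T * Real.log T ^ j) * (2 * Real.pi * I)⁻¹ *
          (wA e (tp x y z) * sqI fun Z => KK th c1 c2 T j Z (tp x y z) W)‖ ≤
      64 * (M * CN * 8 ^ 3 * 2 * J * T ^ (9 / 10 : ℝ) * ‖W‖ ^ (1 / 4 : ℝ)) := by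
    intro x y z
    have h1 := (hmain _ (tp_mem x y z)).2
    have h2 : wA e (tp x y z) * RR th c1 c2 T j (sc T (tp x y z)) (W / Real.log T) -
        (cG T * Real.log T ^ j) * (2 * Real.pi * I)⁻¹ *
          (wA e (tp x y z) * sqI fun Z => KK th c1 c2 T j Z (tp x y z) W) =
        wA e (tp x y z) * E (tp x y z) := by
      rw [h1]
      ring
    rw [h2, norm_mul]
    exact mul_le_mul (wA_norm he x y z) (hEb _ (tp_mem x y z)) (norm_nonneg _) (by norm_num)
  refine (av3_norm_le hfin).trans (le_of_eq ?_)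
  ring

end Pool.Agent.Lib.MP_6bc78b_nt.MS.P3.H2
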