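import Pool.Agent.Lib.MP_6bc78b_nt.MS.P3.Iface

/-! Linearity, continuity and bounds for the circle averages `cav`, `av3`. -/

set_option autoImplicit false

open Complex Filter Topology ArithmeticFunction MeasureTheory

namespace Pool.Agent.Lib.MP_6bc78b_nt.MS.P3.H2

/-- The circle of radius 1/4. -/
noncomputable def cc (θ : ℝ) : ℂ := 1 / 4 * Complex.exp (θ * I)

theorem cc_norm (θ : ℝ) : ‖cc θ‖ = 1 / 4 := by
  unfold cc
  rw [norm_mul, norm_exp_ofReal_mul_I]
  norm_num

theorem cc_cont : Continuous cc := by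
  unfold cc
  fun_prop

theorem cav_eq (f : ℂ → ℂ) :
    cav f = ((2 * Real.pi : ℝ) : ℂ)⁻¹ * ∫ θ in (0 : ℝ)..(2 * Real.pi), f (cc θ) := rfl

theorem cav_congr {f g : ℂ → ℂ} (h : ∀ θ, f (cc θ) = g (cc θ)) : cav f = cav g := by
  rw [cav_eq, cav_eq]
  simp only [h]

theorem cav_lin {g h : ℂ → ℂ} {k : ℂ} (hg : Continuous fun θ : ℝ => g (cc θ))
    (hh : Continuous fun θ : ℝ => h (cc θ)) :
    cav (fun x => g x - k * h x) = cav g - k * cav h := by
  rw [cav_eq, cav_eq, cav_eq]
  have h1 : Continuous fun θ : ℝ => k * h (cc θ) := continuous_const.mul hh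
  have h2 := intervalIntegral.integral_sub (hg.intervalIntegrable 0 (2 * Real.pi))
    (h1.intervalIntegrable 0 (2 * Real.pi)) (μ := volume)
  rw [h2, intervalIntegral.integral_const_mul]
  ring

theorem cav_cont {X : Type*} [TopologicalSpace X] [FirstCountableTopology X] {g : X → ℂ → ℂ}
    (hg : Continuous fun p : X × ℝ => g p.1 (cc p.2)) : Continuous fun x => cav (g x) := by
  simp only [cav_eq]
  exact continuous_const.mul
    (intervalIntegral.continuous_parametric_intervalIntegral_of_continuous'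
      (f := fun x θ => g x (cc θ)) hg _ _)

theorem cav_norm_le {f : ℂ → ℂ} {B : ℝ} (h : ∀ θ, ‖f (cc θ)‖ ≤ B) : ‖cav f‖ ≤ B := by
  rw [cav_eq, norm_mul]
  have h1 : ‖∫ θ in (0 : ℝ)..(2 * Real.pi), f (cc θ)‖ ≤ B * |2 * Real.pi - 0| :=
    intervalIntegral.norm_integral_le_of_norm_le_const fun θ _ => h θ
  have h2 : (0 : ℝ) < 2 * Real.pi := by positivity
  rw [sub_zero, abs_of_pos h2] at h1
  rw [norm_inv, Complex.norm_real, Real.norm_eq_abs, abs_of_pos h2]
  calc (2 * Real.pi)⁻¹ * ‖∫ θ in (0 : ℝ)..(2 * Real.pi), f (cc θ)‖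
      ≤ (2 * Real.pi)⁻¹ * (B * (2 * Real.pi)) := by gcongr
    _ = B := by field_simp

/-- Points of the torus. -/
noncomputable def tp (x y z : ℝ) : Fin 3 → ℂ := ![cc x, cc y, cc z]

theorem tp_norm (x y z : ℝ) (i : Fin 3) : ‖tp x y z i‖ = 1 / 4 := by
  fin_cases i <;> simp [tp, cc_norm]

theorem tp_mem (x y z : ℝ) : tp x y z ∈ pd := fun i => (tp_norm x y z i).le

theorem tp_cont : Continuous fun p : ℝ × ℝ × ℝ => tp p.1 p.2.1 p.2.2 := by
  refine continuous_pi fun i => ?_
  fin_cases i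
  · exact cc_cont.comp continuous_fst
  · exact cc_cont.comp (continuous_fst.comp continuous_snd)
  · exact cc_cont.comp (continuous_snd.comp continuous_snd)

theorem av3_congr {f g : (Fin 3 → ℂ) → ℂ} (h : ∀ x y z, f (tp x y z) = g (tp x y z)) :
    av3 f = av3 g := by
  unfold av3
  exact cav_congr fun x => cav_congr fun y => cav_congr fun z => h x y z

theorem av3_norm_le {f : (Fin 3 → ℂ) → ℂ} {B : ℝ} (h : ∀ x y z, ‖f (tp x y z)‖ ≤ B) :
    ‖av3 f‖ ≤ B := by
  unfold av3
  exact cav_norm_le fun x => cav_norm_le fun y => cav_norm_le fun z => h x y z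

theorem av3_lin {f g : (Fin 3 → ℂ) → ℂ} {k : ℂ}
    (hf : Continuous fun p : ℝ × ℝ × ℝ => f (tp p.1 p.2.1 p.2.2))
    (hg : Continuous fun p : ℝ × ℝ × ℝ => g (tp p.1 p.2.1 p.2.2)) :
    av3 (fun A => f A - k * g A) = av3 f - k * av3 g := by
  unfold av3
  have c3 : ∀ {f : (Fin 3 → ℂ) → ℂ}, (Continuous fun p : ℝ × ℝ × ℝ => f (tp p.1 p.2.1 p.2.2)) →
      ∀ x y : ℝ, Continuous fun θ : ℝ => f ![cc x, cc y, cc θ] := by
    intro f hf x y
    exact hf.comp (Continuous.prodMk continuous_const (Continuous.prodMk continuous_const continuous_id))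
  have c2 : ∀ {f : (Fin 3 → ℂ) → ℂ}, (Continuous fun p : ℝ × ℝ × ℝ => f (tp p.1 p.2.1 p.2.2)) →
      Continuous fun p : ℝ × ℝ => cav fun z => f ![cc p.1, cc p.2, z] := by
    intro f hf
    refine cav_cont (g := fun (p : ℝ × ℝ) z => f ![cc p.1, cc p.2, z]) ?_
    exact hf.comp (Continuous.prodMk (continuous_fst.comp continuous_fst)
      (Continuous.prodMk (continuous_snd.comp continuous_fst) continuous_snd))
  have c1 : ∀ {f : (Fin 3 → ℂ) → ℂ}, (Continuous fun p : ℝ × ℝ × ℝ => f (tp p.1 p.2.1 p.2.2)) →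
      Continuous fun x : ℝ => cav fun y => cav fun z => f ![cc x, y, z] := by
    intro f hf
    refine cav_cont (g := fun (x : ℝ) y => cav fun z => f ![cc x, y, z]) ?_
    exact c2 hf
  have s3 : ∀ x y : ℝ, cav (fun z => f ![cc x, cc y, z] - k * g ![cc x, cc y, z]) =
      cav (fun z => f ![cc x, cc y, z]) - k * cav (fun z => g ![cc x, cc y, z]) :=
    fun x y => cav_lin (c3 hf x y) (c3 hg x y)
  have d2 : ∀ {f : (Fin 3 → ℂ) → ℂ}, (Continuous fun p : ℝ × ℝ × ℝ => f (tp p.1 p.2.1 p.2.2)) →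
      ∀ x : ℝ, Continuous fun y : ℝ => cav fun z => f ![cc x, cc y, z] := by
    intro f hf x
    have h1 : Continuous fun y : ℝ => ((x, y) : ℝ × ℝ) := by fun_prop
    have h2 := (c2 hf).comp h1
    simpa only [Function.comp_def] using h2
  have s2 : ∀ x : ℝ, cav (fun y => cav fun z => f ![cc x, y, z] - k * g ![cc x, y, z]) =
      cav (fun y => cav fun z => f ![cc x, y, z]) -
        k * cav (fun y => cav fun z => g ![cc x, y, z]) := by
    intro x
    have h1 : cav (fun y => cav fun z => f ![cc x, y, z] - k * g ![cc x, y, z]) =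
        cav (fun y => (cav fun z => f ![cc x, y, z]) - k * (cav fun z => g ![cc x, y, z])) :=
      cav_congr (fun y => s3 x y)
    rw [h1]
    exact cav_lin (g := fun y => cav fun z => f ![cc x, y, z])
      (h := fun y => cav fun z => g ![cc x, y, z]) (d2 hf x) (d2 hg x)
  have h1 : cav (fun x => cav fun y => cav fun z => f ![x, y, z] - k * g ![x, y, z]) =
      cav (fun x => (cav fun y => cav fun z => f ![x, y, z]) -
        k * (cav fun y => cav fun z => g ![x, y, z])) := cav_congr (fun x => s2 x)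
  rw [h1]
  exact cav_lin (g := fun x => cav fun y => cav fun z => f ![x, y, z])
    (h := fun x => cav fun y => cav fun z => g ![x, y, z]) (c1 hf) (c1 hg)

theorem wA_cont (e : Fin 3 → ℕ) : Continuous fun p : ℝ × ℝ × ℝ => wA e (tp p.1 p.2.1 p.2.2) := by
  unfold wA
  refine continuous_finsetProd _ fun i _ => ?_
  have h1 : Continuous fun p : ℝ × ℝ × ℝ => tp p.1 p.2.1 p.2.2 i :=
    (continuous_apply i).comp tp_cont
  refine (h1.pow (e i)).inv₀ fun p => ?_
  have h2 := tp_norm p.1 p.2.1 p.2.2 i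
  exact pow_ne_zero _ (norm_ne_zero_iff.1 (by rw [h2]; norm_num))

theorem wA_norm {e : Fin 3 → ℕ} (he : ∀ i, e i ≤ 1) (x y z : ℝ) : ‖wA e (tp x y z)‖ ≤ 64 := by
  unfold wA
  rw [Finset.prod_congr rfl (g := fun i => ((tp x y z i) ^ (e i))⁻¹) (fun _ _ => rfl), norm_prod]
  have h : ∀ i, ‖((tp x y z i) ^ (e i))⁻¹‖ ≤ 4 := by
    intro i
    rw [norm_inv, norm_pow, tp_norm]
    have := he i
    interval_cases (e i) <;> norm_num
  calc ∏ i, ‖((tp x y z i) ^ (e i))⁻¹‖ ≤ ∏ _i : Fin 3, (4 : ℝ) :=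
        Finset.prod_le_prod (fun i _ => norm_nonneg _) fun i _ => h i
    _ = 64 := by norm_num [Finset.prod_const]

/-- Clamp to `[-1/2, 1/2]`. -/
noncomputable def cl (x : ℝ) : ℝ := max (-(1 / 2)) (min x (1 / 2))

theorem cl_cont : Continuous cl := by unfold cl; fun_prop

theorem cl_eq {x : ℝ} (hx : x ∈ Set.uIcc (-(1 / 2) : ℝ) (1 / 2)) : cl x = x := by
  rw [Set.uIcc_of_le (by norm_num)] at hx
  unfold cl
  rw [min_eq_left hx.2, max_eq_right hx.1]

theorem cl_abs (x : ℝ) : |cl x| ≤ 1 / 2 := by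
  unfold cl
  rw [abs_le]
  constructor
  · exact le_max_left _ _
  · exact max_le (by norm_num) (min_le_right _ _)

/-- Continuity in a parameter of the integral over the boundary of the square. -/
theorem sqI_cont {X : Type*} [TopologicalSpace X] [FirstCountableTopology X] {g : ℂ → X → ℂ}
    (hg : ContinuousOn (fun p : ℂ × X => g p.1 p.2) (sqB ×ˢ Set.univ)) :
    Continuous fun x => sqI fun Z => g Z x := by
  unfold sqI
  have key : ∀ (γ : ℝ → ℂ), Continuous γ → (∀ x : ℝ, γ (cl x) ∈ sqB) →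
      Continuous fun p : X => ∫ x in (-(1 / 2) : ℝ)..(1 / 2), g (γ x) p := by
    intro γ hγ hm
    have h1 : ∀ p : X, ∫ x in (-(1 / 2) : ℝ)..(1 / 2), g (γ x) p =
        ∫ x in (-(1 / 2) : ℝ)..(1 / 2), g (γ (cl x)) p := by
      intro p
      apply intervalIntegral.integral_congr
      intro x hx
      simp only
      rw [cl_eq hx]
    rw [funext h1]
    refine intervalIntegral.continuous_parametric_intervalIntegral_of_continuous'
      (f := fun p x => g (γ (cl x)) p) ?_ _ _
    have h2 : Continuous fun q : X × ℝ => ((γ (cl q.2), q.1) : ℂ × X) :=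
      (hγ.comp (cl_cont.comp continuous_snd)).prodMk continuous_fst
    exact hg.comp_continuous h2 fun q => ⟨hm q.2, Set.mem_univ _⟩
  have k1 := key (fun x => (x : ℂ) - I / 2) (by fun_prop) (fun x => by
    refine ⟨?_, ?_, Or.inr ?_⟩
    · simpa using cl_abs x
    · simp
    · simp)
  have k2 := key (fun x => (x : ℂ) + I / 2) (by fun_prop) (fun x => by
    refine ⟨?_, ?_, Or.inr ?_⟩
    · simpa using cl_abs x
    · simp
    · simp)
  have k3 := key (fun x => 1 / 2 + (x : ℂ) * I) (by fun_prop) (fun x => by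
    refine ⟨?_, ?_, Or.inl ?_⟩
    · simp
    · simpa using cl_abs x
    · simp)
  have k4 := key (fun x => -(1 / 2) + (x : ℂ) * I) (by fun_prop) (fun x => by
    refine ⟨?_, ?_, Or.inl ?_⟩
    · simp
    · simpa using cl_abs x
    · simp)
  exact ((k1.sub k2).add (continuous_const.mul k3)).sub (continuous_const.mul k4)

theorem sqI_congr {f g : ℂ → ℂ} (h : ∀ Z ∈ sqB, f Z = g Z) : sqI f = sqI g := by
  unfold sqI
  have key : ∀ (γ : ℝ → ℂ), (∀ x : ℝ, γ (cl x) ∈ sqB) →
      ∫ x in (-(1 / 2) : ℝ)..(1 / 2), f (γ x) = ∫ x in (-(1 / 2) : ℝ)..(1 / 2), g (γ x) := by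
    intro γ hm
    apply intervalIntegral.integral_congr
    intro x hx
    have := h _ (hm x)
    rw [cl_eq hx] at this
    exact this
  have k1 := key (fun x => (x : ℂ) - I / 2) (fun x => by
    refine ⟨?_, ?_, Or.inr ?_⟩
    · simpa using cl_abs x
    · simp
    · simp)
  have k2 := key (fun x => (x : ℂ) + I / 2) (fun x => by
    refine ⟨?_, ?_, Or.inr ?_⟩
    · simpa using cl_abs x
    · simp
    · simp)
  have k3 := key (fun x => 1 / 2 + (x : ℂ) * I) (fun x => by
    refine ⟨?_, ?_, Or.inl ?_⟩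
    · simp
    · simpa using cl_abs x
    · simp)
  have k4 := key (fun x => -(1 / 2) + (x : ℂ) * I) (fun x => by
    refine ⟨?_, ?_, Or.inl ?_⟩
    · simp
    · simpa using cl_abs x
    · simp)
  rw [k1, k2, k3, k4]

theorem sqI_const_mul (c : ℂ) (f : ℂ → ℂ) : sqI (fun Z => c * f Z) = c * sqI f := by
  unfold sqI
  simp only [intervalIntegral.integral_const_mul]
  ring

end Pool.Agent.Lib.MP_6bc78b_nt.MS.P3.H2
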